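import Mathlib

/-!
MP_325208: the arithmetic at the end of helper97's count.
-/

set_option autoImplicit false

namespace Pool.Agent.H33.PS

/-- the arithmetic: `d > 0.589 q` -/
theorem arith {q d m : ℕ} (hq2 : 2 ≤ q) (hdm : d + m = q) (hb : q + 2 ≤ 2 * d)
    (hc : q < 3 * m → (q : ℤ) * ((d : ℤ) * (q + 1) - 1) ^ 2 ≤
      (((q : ℤ) + d) * (q + d - 1) - (d * (q + 1) - 1)) *
        ((d : ℤ) * (q + 1) - 1 + ((q : ℤ) ^ 2 + 1 - d) * (2 * d - q - 1))) :
    (q : ℤ) ^ 3 < 2 * d ^ 3 + d * q ^ 2 := by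
  by_cases h : q < 3 * m
  · have h1 := hc h
    have hq7 : (7 : ℤ) ≤ q := by omega
    have hd5 : (5 : ℤ) ≤ d := by omega
    have hdq : (d : ℤ) ≤ q := by omega
    have hqd : (q : ℤ) ≤ 2 * d := by omega
    generalize (q : ℤ) = x at *
    generalize (d : ℤ) = y at *
    have key : ((x + y) * (x + y - 1) - (y * (x + 1) - 1)) *
        (y * (x + 1) - 1 + (x ^ 2 + 1 - y) * (2 * y - x - 1)) - x * (y * (x + 1) - 1) ^ 2 =
        x ^ 2 * (2 * y ^ 3 + y * x ^ 2 - x ^ 3) + (y * x ^ 3 - 7 * y ^ 2 * x ^ 2 - 2 * y ^ 4 - x ^ 3 +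
          7 * y * x ^ 2 + 8 * y ^ 3 - 2 * x ^ 2 - 12 * y ^ 2 + 8 * y - 2) := by ring
    have n1 : y * x ^ 3 ≤ 2 * y ^ 2 * x ^ 2 := by
      have : 0 ≤ y * x ^ 2 * (2 * y - x) := by
        apply mul_nonneg (by positivity)
        linarith
      nlinarith
    have n2 : 5 * (7 * y * x ^ 2) ≤ 7 * y ^ 2 * x ^ 2 := by
      have : 0 ≤ 7 * y * x ^ 2 * (y - 5) := by
        apply mul_nonneg (by positivity)
        linarith
      nlinarith
    have n3 : 7 * (8 * y ^ 3) ≤ 8 * y ^ 2 * x ^ 2 := by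
      have h3 : y * 7 ≤ x * x := mul_le_mul hdq hq7 (by norm_num) (by linarith)
      have : 0 ≤ 8 * y ^ 2 * (x * x - y * 7) := by
        apply mul_nonneg (by positivity)
        linarith
      nlinarith
    have n4 : 0 < y ^ 2 * x ^ 2 := by
      have : 0 < y := by linarith
      have : 0 < x := by linarith
      positivity
    have n5 : 8 * y ≤ 12 * y ^ 2 := by nlinarith
    have n6 : 0 ≤ y ^ 4 := by positivity
    have n7 : 0 ≤ x ^ 3 := by
      have : 0 < x := by linarith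
      positivity
    have n8 : 0 ≤ x ^ 2 := by positivity
    have n9 : 0 < x ^ 2 * (2 * y ^ 3 + y * x ^ 2 - x ^ 3) := by linarith
    have n10 : 0 < 2 * y ^ 3 + y * x ^ 2 - x ^ 3 := by
      by_contra hcon
      push Not at hcon
      have := mul_nonpos_of_nonneg_of_nonpos n8 hcon
      linarith
    linarith
  · push Not at h
    have h1 : 2 * (q : ℤ) ≤ 3 * d := by omega
    have h2 : (2 : ℤ) ≤ q := by exact_mod_cast hq2
    generalize (q : ℤ) = x at *
    generalize (d : ℤ) = y at *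
    have hx : 0 < x := by linarith
    have hy : 0 < y := by linarith
    have e1 : (2 * x) ^ 3 ≤ (3 * y) ^ 3 := pow_le_pow_left₀ (by linarith) h1 3
    have e2 : 2 * x * x ^ 2 ≤ 3 * y * x ^ 2 := mul_le_mul_of_nonneg_right h1 (by positivity)
    have e3 : 0 < x ^ 3 := by positivity
    nlinarith

end Pool.Agent.H33.PS
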