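import Mathlib

/-!
MP_325208 (helper33): uniqueness of the conic through five points and of the nucleus.
-/

set_option autoImplicit false

open Module

namespace Pool.Agent.H33.PS

variable {F : Type*} [Field F] {V : Type*} [AddCommGroup V] [Module F V]

/-- no three collinear points of `K` are zeros of `Q` -/
def Arc (Q : QuadraticForm F V) (K : Submodule F V) : Prop :=
  ∀ a b c : V, a ∈ K → b ∈ K → c ∈ K → a ≠ 0 → b ≠ 0 → c ≠ 0 → Q a = 0 → Q b = 0 → Q c = 0 →
    c ∈ Submodule.span F {a, b} → c ∈ Submodule.span F {a} ∨ c ∈ Submodule.span F {b} ∨ b ∈ Submodule.span F {a}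

theorem q_add (Q : QuadraticForm F V) (u v : V) : Q (u + v) = Q u + Q v + QuadraticMap.polar Q u v := by
  unfold QuadraticMap.polar; ring

theorem expand (Q : QuadraticForm F V) (a b : F) (u v : V) :
    Q (a • u + b • v) = a ^ 2 * Q u + a * b * QuadraticMap.polar Q u v + b ^ 2 * Q v := by
  rw [q_add, QuadraticMap.map_smul, QuadraticMap.map_smul, QuadraticMap.polar_smul_left, QuadraticMap.polar_smul_right]
  simp only [smul_eq_mul]
  ring

/-- **Factorisation.** A form which vanishes on a line of the plane `K` is a product of two linear forms on `K`, the first one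
being any equation of the line. -/
theorem factor (Q : QuadraticForm F V) {K : Submodule F V} {u v : V} (hu : Q u = 0) (hv : Q v = 0)
    (huv : QuadraticMap.polar Q u v = 0)
    {ℓ : Dual F V} (hℓ : ∀ w ∈ K, ℓ w = 0 → w ∈ Submodule.span F {u, v}) :
    ∃ ℓ' : Dual F V, ∀ w ∈ K, Q w = ℓ w * ℓ' w := by
  have h0 : ∀ w ∈ Submodule.span F {u, v}, Q w = 0 := by
    intro w hw
    obtain ⟨a, b, rfl⟩ := Submodule.mem_span_pair.1 hw
    rw [expand, hu, hv, huv]
    ring
  by_cases hz : ∀ w ∈ K, ℓ w = 0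
  · refine ⟨0, fun w hw => ?_⟩
    rw [h0 w (hℓ w hw (hz w hw))]
    simp
  · push Not at hz
    obtain ⟨e, heK, he⟩ := hz
    set e' := (ℓ e)⁻¹ • e with he'
    have he1 : ℓ e' = 1 := by
      rw [he', map_smul, smul_eq_mul, inv_mul_cancel₀ he]
    have heK' : e' ∈ K := K.smul_mem _ heK
    refine ⟨QuadraticMap.polarBilin Q e' - Q e' • ℓ, fun w hw => ?_⟩
    have h1 : ℓ (w - ℓ w • e') = 0 := by
      rw [map_sub, map_smul, he1, smul_eq_mul, mul_one, sub_self]
    have h2 := h0 _ (hℓ _ (K.sub_mem hw (K.smul_mem _ heK')) h1)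
    have h3 : w - ℓ w • e' = (1 : F) • w + (-ℓ w) • e' := by
      rw [one_smul, neg_smul, sub_eq_add_neg]
    rw [h3, expand] at h2
    rw [LinearMap.sub_apply, QuadraticMap.polarBilin_apply_apply, LinearMap.smul_apply, smul_eq_mul,
      QuadraticMap.polar_comm]
    linear_combination h2

theorem finrank_pair {a b : V} (ha : a ≠ 0) (hb : b ∉ Submodule.span F {a}) :
    finrank F (Submodule.span F {a, b}) = 2 := by
  have h1 : LinearIndependent F ![a, b] := by
    rw [LinearIndependent.pair_iff' ha]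
    intro c hc
    exact hb (Submodule.mem_span_singleton.2 ⟨c, hc⟩)
  have h2 := finrank_span_eq_card h1
  have h3 : Set.range ![a, b] = {a, b} := by simp [Matrix.range_cons, Set.pair_comm]
  rw [h3] at h2
  simpa using h2

theorem cut {P Q : Submodule F V} (hPQ : P ≤ Q) (h : finrank F P + 1 = finrank F Q) :
    ∃ f : Dual F V, ∀ x ∈ Q, f x = 0 → x ∈ P := by
  have : FiniteDimensional F Q := FiniteDimensional.of_finrank_pos (by omega)
  have hlt : P < Q := by
    refine lt_of_le_of_ne hPQ ?_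
    rintro rfl
    omega
  obtain ⟨e, he, heP⟩ := SetLike.exists_of_lt hlt
  obtain ⟨g, hg, hgP⟩ := Submodule.exists_le_ker_of_notMem heP
  have h1 : P = Q ⊓ LinearMap.ker g := by
    have : FiniteDimensional F (Q ⊓ LinearMap.ker g : Submodule F V) :=
      Submodule.finiteDimensional_of_le (inf_le_left : Q ⊓ LinearMap.ker g ≤ Q)
    refine Submodule.eq_of_le_of_finrank_le (le_inf hPQ hgP) ?_
    have h2 : Q ⊓ LinearMap.ker g < Q := by
      refine lt_of_le_of_ne inf_le_left ?_
      intro heq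
      rw [← heq] at he
      exact hg he.2
    have := Submodule.finrank_lt_finrank_of_lt h2
    omega
  refine ⟨g, fun x hx hx0 => ?_⟩
  rw [h1]
  exact ⟨hx, hx0⟩

/-- three points of an arc span the plane -/
theorem span_three {K : Submodule F V} (hK : finrank F K = 3) {a b c : V} (ha : a ∈ K) (hb : b ∈ K) (hc : c ∈ K)
    (ha0 : a ≠ 0) (hba : b ∉ Submodule.span F {a}) (hcab : c ∉ Submodule.span F {a, b}) {ℓ : Dual F V}
    (h1 : ℓ a = 0) (h2 : ℓ b = 0) (h3 : ℓ c = 0) : ∀ w ∈ K, ℓ w = 0 := by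
  have : FiniteDimensional F K := FiniteDimensional.of_finrank_pos (by omega)
  have hN : finrank F (Submodule.span F {a, b}) = 2 := finrank_pair ha0 hba
  have hle : Submodule.span F {a, b} ≤ K ⊓ LinearMap.ker ℓ := by
    rw [Submodule.span_le]
    intro x hx
    simp only [Set.mem_insert_iff, Set.mem_singleton_iff] at hx
    rcases hx with rfl | rfl
    · exact ⟨ha, h1⟩
    · exact ⟨hb, h2⟩
  have : FiniteDimensional F (K ⊓ LinearMap.ker ℓ : Submodule F V) :=
    Submodule.finiteDimensional_of_le (inf_le_left : K ⊓ LinearMap.ker ℓ ≤ K)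
  have hlt : Submodule.span F {a, b} < K ⊓ LinearMap.ker ℓ := by
    refine lt_of_le_of_ne hle ?_
    intro heq
    apply hcab
    rw [heq]
    exact ⟨hc, h3⟩
  have h4 := Submodule.finrank_lt_finrank_of_lt hlt
  have h5 : K ⊓ LinearMap.ker ℓ = K := by
    refine Submodule.eq_of_le_of_finrank_le inf_le_left ?_
    omega
  intro w hw
  rw [← h5] at hw
  exact hw.2

/-- **The conic through five points of an arc is unique.** -/
theorem unique {K : Submodule F V} (hK : finrank F K = 3) (Q₁ Q₂ : QuadraticForm F V) (h1 : Arc Q₁ K)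
    (h2 : Arc Q₂ K) (p : Fin 5 → V) (hpK : ∀ i, p i ∈ K) (hp0 : ∀ i, p i ≠ 0)
    (hp : ∀ i j, i ≠ j → p j ∉ Submodule.span F {p i}) (hz1 : ∀ i, Q₁ (p i) = 0) (hz2 : ∀ i, Q₂ (p i) = 0) :
    ∃ c₁ c₂ : F, c₁ ≠ 0 ∧ c₂ ≠ 0 ∧ ∀ v ∈ K, c₁ * Q₁ v = c₂ * Q₂ v := by
  set x := p 0 + p 1 with hx
  have hxK : x ∈ K := K.add_mem (hpK 0) (hpK 1)
  have h01 : p 1 ∉ Submodule.span F {p 0} := hp 0 1 (by decide)
  have h10 : p 0 ∉ Submodule.span F {p 1} := hp 1 0 (by decide)
  have hxm : x ∈ Submodule.span F {p 0, p 1} :=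
    Submodule.add_mem _ (Submodule.subset_span (by simp)) (Submodule.subset_span (by simp))
  have hx0 : x ≠ 0 := by
    intro h
    apply h01
    have : p 1 = (-1 : F) • p 0 := by
      rw [neg_one_smul]
      exact (neg_eq_of_add_eq_zero_right h).symm
    rw [this]
    exact Submodule.smul_mem _ _ (Submodule.mem_span_singleton_self _)
  have hne : ∀ Q : QuadraticForm F V, Arc Q K → (∀ i, Q (p i) = 0) → Q x ≠ 0 := by
    intro Q hQ hz h
    rcases hQ (p 0) (p 1) x (hpK 0) (hpK 1) hxK (hp0 0) (hp0 1) hx0 (hz 0) (hz 1) h hxm with h3 | h3 | h3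
    · apply h01
      have : p 1 = x - p 0 := by rw [hx]; abel
      rw [this]
      exact Submodule.sub_mem _ h3 (Submodule.mem_span_singleton_self _)
    · apply h10
      have : p 0 = x - p 1 := by rw [hx]; abel
      rw [this]
      exact Submodule.sub_mem _ h3 (Submodule.mem_span_singleton_self _)
    · exact h01 h3
  have hn1 := hne Q₁ h1 hz1
  have hn2 := hne Q₂ h2 hz2
  refine ⟨Q₂ x, Q₁ x, hn2, hn1, ?_⟩
  set Q : QuadraticForm F V := Q₂ x • Q₁ - Q₁ x • Q₂ with hQdef
  have hQ : ∀ v, Q v = Q₂ x * Q₁ v - Q₁ x * Q₂ v := by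
    intro v
    rw [hQdef]
    simp
  have hQp : ∀ i, Q (p i) = 0 := by
    intro i
    rw [hQ, hz1, hz2]
    ring
  have hQx : Q x = 0 := by
    rw [hQ]
    ring
  have hpol : QuadraticMap.polar Q (p 0) (p 1) = 0 := by
    have := q_add Q (p 0) (p 1)
    rw [← hx, hQx, hQp, hQp] at this
    simpa using this.symm
  have hle : Submodule.span F {p 0, p 1} ≤ K := by
    rw [Submodule.span_le]
    intro y hy
    simp only [Set.mem_insert_iff, Set.mem_singleton_iff] at hy
    rcases hy with rfl | rfl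
    · exact hpK 0
    · exact hpK 1
  obtain ⟨ℓ, hℓ⟩ := cut hle (by rw [finrank_pair (hp0 0) h01, hK])
  obtain ⟨ℓ', hℓ'⟩ := factor Q (hQp 0) (hQp 1) hpol hℓ
  -- no point is on a line through two others
  have hcol : ∀ i j k : Fin 5, i ≠ j → i ≠ k → j ≠ k → p k ∉ Submodule.span F {p i, p j} := by
    intro i j k hij hik hjk h
    rcases h1 (p i) (p j) (p k) (hpK i) (hpK j) (hpK k) (hp0 i) (hp0 j) (hp0 k) (hz1 i) (hz1 j) (hz1 k) h with h3 | h3 | h3
    · exact hp i k hik h3
    · exact hp j k hjk h3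
    · exact hp i j hij h3
  have hz : ∀ k : Fin 5, k ≠ 0 → k ≠ 1 → ℓ' (p k) = 0 := by
    intro k hk0 hk1
    have h3 := hℓ' (p k) (hpK k)
    rw [hQp] at h3
    rcases mul_eq_zero.1 h3.symm with h4 | h4
    · exact absurd (hℓ _ (hpK k) h4) (hcol 0 1 k (by decide) (Ne.symm hk0) (Ne.symm hk1))
    · exact h4
  have hzero := span_three hK (hpK 2) (hpK 3) (hpK 4) (hp0 2) (hp 2 3 (by decide))
    (hcol 2 3 4 (by decide) (by decide) (by decide)) (hz 2 (by decide) (by decide)) (hz 3 (by decide) (by decide))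
    (hz 4 (by decide) (by decide))
  intro v hv
  have h3 := hℓ' v hv
  rw [hzero v hv, mul_zero, hQ] at h3
  linear_combination h3

/-- **The nucleus is unique.** -/
theorem nucleus [Fintype F] {K : Submodule F V} (hK : finrank F K = 3) (Q : QuadraticForm F V) (hQ : Arc Q K) {Z Z' : V}
    (hZ : Z ∈ K) (hZ' : Z' ∈ K) (h0 : Q Z ≠ 0) (h0' : Q Z' ≠ 0) (hp : ∀ x ∈ K, QuadraticMap.polar Q Z x = 0)
    (hp' : ∀ x ∈ K, QuadraticMap.polar Q Z' x = 0) : Z' ∈ Submodule.span F {Z} := by
  by_contra hcon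
  -- the characteristic is two
  have h2 : (2 : F) = 0 := by
    have h3 := hp Z hZ
    rw [QuadraticMap.polar_self] at h3
    have h4 : (2 : F) * Q Z = 0 := by
      rw [← h3]
      simp [two_mul, two_nsmul]
    exact (mul_eq_zero.1 h4).resolve_right h0
  have hsq : ∀ a : F, ∃ b : F, b ^ 2 = a := by
    have hr : ringChar F = 2 := by
      have h3 : ringChar F ∣ 2 := ringChar.dvd (by exact_mod_cast h2)
      rcases (Nat.dvd_prime Nat.prime_two).1 h3 with h4 | h4
      · exact absurd h4 CharP.ringChar_ne_one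
      · exact h4
    intro a
    obtain ⟨b, hb⟩ := FiniteField.isSquare_of_char_two hr a
    exact ⟨b, by rw [hb, sq]⟩
  have hZ0 : Z ≠ 0 := by
    rintro rfl
    exact h0 (by simp)
  have hN : finrank F (Submodule.span F {Z, Z'}) = 2 := finrank_pair hZ0 hcon
  have hle : Submodule.span F {Z, Z'} ≤ K := by
    rw [Submodule.span_le]
    intro x hx
    simp only [Set.mem_insert_iff, Set.mem_singleton_iff] at hx
    rcases hx with rfl | rfl
    · exact hZ
    · exact hZ'
  have hlt : Submodule.span F {Z, Z'} < K := by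
    refine lt_of_le_of_ne hle ?_
    intro heq
    rw [heq] at hN
    omega
  obtain ⟨e, heK, heN⟩ := SetLike.exists_of_lt hlt
  obtain ⟨α, hα⟩ := hsq (Q Z)
  obtain ⟨β, hβ⟩ := hsq (Q Z')
  obtain ⟨γ, hγ⟩ := hsq (Q e)
  have hα0 : α ≠ 0 := by
    rintro rfl
    apply h0
    rw [← hα]
    ring
  have hβ0 : β ≠ 0 := by
    rintro rfl
    apply h0'
    rw [← hβ]
    ring
  set u := β • Z + α • Z' with hu
  set v := γ • Z + α • e with hv
  have huN : u ∈ Submodule.span F {Z, Z'} :=
    Submodule.add_mem _ (Submodule.smul_mem _ _ (Submodule.subset_span (by simp)))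
      (Submodule.smul_mem _ _ (Submodule.subset_span (by simp)))
  have huK : u ∈ K := hle huN
  have hvK : v ∈ K := K.add_mem (K.smul_mem _ hZ) (K.smul_mem _ heK)
  have hQu : Q u = 0 := by
    rw [hu, expand, hp Z' hZ', ← hα, ← hβ]
    linear_combination (β ^ 2 * α ^ 2) * h2
  have hQv : Q v = 0 := by
    rw [hv, expand, hp e heK, ← hα, ← hγ]
    linear_combination (γ ^ 2 * α ^ 2) * h2
  have hu0 : u ≠ 0 := by
    intro h
    apply hcon
    have h3 : Z' = (-(α⁻¹ * β)) • Z := by
      have h4 : α⁻¹ • (β • Z + α • Z') = 0 := by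
        rw [← hu, h, smul_zero]
      rw [smul_add, smul_smul, smul_smul, inv_mul_cancel₀ hα0, one_smul] at h4
      rw [neg_smul]
      exact (neg_eq_of_add_eq_zero_right h4).symm
    rw [h3]
    exact Submodule.smul_mem _ _ (Submodule.mem_span_singleton_self _)
  have hvN : v ∉ Submodule.span F {Z, Z'} := by
    intro h
    apply heN
    have h3 : e = α⁻¹ • (v - γ • Z) := by
      rw [hv, add_sub_cancel_left, smul_smul, inv_mul_cancel₀ hα0, one_smul]
    rw [h3]
    exact Submodule.smul_mem _ _ (Submodule.sub_mem _ h (Submodule.smul_mem _ _ (Submodule.subset_span (by simp))))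
  have hv0 : v ≠ 0 := by
    intro h
    apply hvN
    rw [h]
    exact Submodule.zero_mem _
  have hpe : QuadraticMap.polar Q e e = 0 := by
    rw [QuadraticMap.polar_self]
    have : (2 : F) * Q e = 0 := by rw [h2, zero_mul]
    rw [← this]
    simp [two_mul, two_nsmul]
  have hpuv : QuadraticMap.polar Q u v = 0 := by
    rw [hu, QuadraticMap.polar_add_left, QuadraticMap.polar_smul_left, QuadraticMap.polar_smul_left, hp v hvK,
      hp' v hvK]
    simp
  have hQw : Q (u + v) = 0 := by
    rw [q_add, hQu, hQv, hpuv]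
    ring
  have hvu : v ∉ Submodule.span F {u} := by
    intro h
    apply hvN
    exact (Submodule.span_singleton_le_iff_mem u _).2 huN h
  have huv0 : u + v ≠ 0 := by
    intro h
    apply hvu
    have : v = (-1 : F) • u := by
      rw [neg_one_smul]
      exact (neg_eq_of_add_eq_zero_right h).symm
    rw [this]
    exact Submodule.smul_mem _ _ (Submodule.mem_span_singleton_self _)
  have huvm : u + v ∈ Submodule.span F {u, v} :=
    Submodule.add_mem _ (Submodule.subset_span (by simp)) (Submodule.subset_span (by simp))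
  rcases hQ u v (u + v) huK hvK (K.add_mem huK hvK) hu0 hv0 huv0 hQu hQv hQw huvm with h3 | h3 | h3
  · apply hvu
    have : v = (u + v) - u := by abel
    rw [this]
    exact Submodule.sub_mem _ h3 (Submodule.mem_span_singleton_self _)
  · have h4 : u ∈ Submodule.span F {v} := by
      have : u = (u + v) - v := by abel
      rw [this]
      exact Submodule.sub_mem _ h3 (Submodule.mem_span_singleton_self _)
    obtain ⟨c, hc⟩ := Submodule.mem_span_singleton.1 h4
    have hc0 : c ≠ 0 := by
      rintro rfl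
      apply hu0
      rw [← hc, zero_smul]
    apply hvu
    rw [Submodule.mem_span_singleton]
    exact ⟨c⁻¹, by rw [← hc, smul_smul, inv_mul_cancel₀ hc0, one_smul]⟩
  · exact hvu h3

end Pool.Agent.H33.PS
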